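import Pool.Agent.Q54.ZE.Mer

/-!
# Euler products with given orders at the integers
-/

set_option autoImplicit false

namespace Pool.Agent.Q27.SO

open Complex Q54.ZE

section

variable {I J K : Type} {N : I → ℕ} {N' : J → ℕ} {M : K → ℕ} {σ : ℝ}

/-- The Euler product has a meromorphic continuation to the plane which has the order `e n` at every
integer `n`. -/
def Ord (N : I → ℕ) (e : ℤ → ℤ) : Prop :=
  ∃ F : ℂ → ℂ, MeromorphicOn F Set.univ ∧ (∃ σ : ℝ, ∀ s : ℂ, σ < s.re → F s = ∏' i, fac N s i) ∧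
    ∀ n : ℤ, meromorphicOrderAt F n = ((e n : ℤ) : WithTop ℤ)

/-- Meromorphic functions which agree on a half-plane have the same orders. -/
lemma order_eq {F G : ℂ → ℂ} (hF : MeromorphicOn F Set.univ) (hG : MeromorphicOn G Set.univ)
    {τ : ℝ} (h : ∀ s : ℂ, τ < s.re → F s = G s) (s₀ : ℂ) :
    meromorphicOrderAt F s₀ = meromorphicOrderAt G s₀ := by
  have hD : MeromorphicOn (F - G) Set.univ := hF.sub hG
  have h1 : meromorphicOrderAt (F - G) ((τ + 1 : ℝ) : ℂ) = ⊤ := by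
    rw [meromorphicOrderAt_eq_top_iff]
    apply Filter.Eventually.filter_mono nhdsWithin_le_nhds
    have h3 : {z : ℂ | τ < z.re} ∈ nhds (((τ + 1 : ℝ) : ℂ)) :=
      (isOpen_lt continuous_const continuous_re).mem_nhds (by
        change τ < (((τ + 1 : ℝ) : ℂ)).re
        rw [ofReal_re]
        linarith)
    filter_upwards [h3] with z hz
    rw [Pi.sub_apply, h z hz, sub_self]
  have h2 : meromorphicOrderAt (F - G) s₀ = ⊤ := by
    by_contra hcon
    have h3 := (hD.exists_meromorphicOrderAt_ne_top_iff_forall isConnected_univ).1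
      ⟨⟨s₀, trivial⟩, hcon⟩ ⟨((τ + 1 : ℝ) : ℂ), trivial⟩
    exact h3 h1
  rw [meromorphicOrderAt_eq_top_iff] at h2
  apply meromorphicOrderAt_congr
  filter_upwards [h2] with z hz
  rw [Pi.sub_apply] at hz
  exact sub_eq_zero.1 hz

lemma ord_iff (h : Good N σ) {e : ℤ → ℤ} : Ord N e ↔ ∃ F : ℂ → ℂ, MeromorphicOn F Set.univ ∧
    (∃ τ : ℝ, ∀ s : ℂ, τ < s.re → F s = exp (lg N s)) ∧
    ∀ n : ℤ, meromorphicOrderAt F n = ((e n : ℤ) : WithTop ℤ) := by
  constructor
  · rintro ⟨F, hF, ⟨τ, h1⟩, h2⟩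
    refine ⟨F, hF, ⟨max σ τ, fun s hs => ?_⟩, h2⟩
    rw [h1 s ((le_max_right _ _).trans_lt hs), tprod_fac h ((le_max_left _ _).trans hs.le)]
  · rintro ⟨F, hF, ⟨τ, h1⟩, h2⟩
    refine ⟨F, hF, ⟨max σ τ, fun s hs => ?_⟩, h2⟩
    rw [h1 s ((le_max_right _ _).trans_lt hs), tprod_fac h ((le_max_left _ _).trans hs.le)]

lemma ord_of_equiv {e' : ℤ → ℤ} (e : I ≃ J) (he : ∀ i, N' (e i) = N i) (h : Ord N e') :
    Ord N' e' := by
  obtain ⟨F, hF, ⟨τ, h1⟩, h2⟩ := h
  refine ⟨F, hF, ⟨τ, fun s hs => ?_⟩, h2⟩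
  rw [h1 s hs, ← e.tprod_eq]
  apply tprod_congr
  intro i
  rw [fac, fac, he]

lemma ord_congr {e e' : ℤ → ℤ} (h : Ord N e) (he : ∀ n, e n = e' n) : Ord N e' := by
  have : e = e' := funext he
  rwa [← this]

variable {e e' : ℤ → ℤ}

lemma split_all (h : Split N N' M σ) (h1 : Ord N e) (h2 : Ord N' e') :
    Ord M fun n => e n + e' n := by
  rw [ord_iff h.left] at h1
  rw [ord_iff h.right] at h2
  rw [ord_iff h.all]
  obtain ⟨F, hF, ⟨τ, h3⟩, hF2⟩ := h1
  obtain ⟨G, hG, ⟨ρ, h4⟩, hG2⟩ := h2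
  refine ⟨F * G, hF.mul hG, ⟨max σ (max τ ρ), fun s hs => ?_⟩, fun n => ?_⟩
  · rw [max_lt_iff, max_lt_iff] at hs
    rw [Pi.mul_apply, h3 s hs.2.1, h4 s hs.2.2, h.add s hs.1.le, Complex.exp_add]
  · rw [meromorphicOrderAt_mul (hF _ trivial) (hG _ trivial), hF2, hG2]
    norm_cast

lemma order_div {F G : ℂ → ℂ} (hF : MeromorphicOn F Set.univ) (hG : MeromorphicOn G Set.univ)
    {n : ℤ} {a b : ℤ} (h1 : meromorphicOrderAt F n = ((a : ℤ) : WithTop ℤ))
    (h2 : meromorphicOrderAt G n = ((b : ℤ) : WithTop ℤ)) :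
    meromorphicOrderAt (F / G) n = ((a - b : ℤ) : WithTop ℤ) := by
  rw [meromorphicOrderAt_div (hF _ trivial) (hG _ trivial), h1, h2]
  norm_cast

lemma split_left (h : Split N N' M σ) (h1 : Ord M e) (h2 : Ord N' e') :
    Ord N fun n => e n - e' n := by
  rw [ord_iff h.all] at h1
  rw [ord_iff h.right] at h2
  rw [ord_iff h.left]
  obtain ⟨F, hF, ⟨τ, h3⟩, hF2⟩ := h1
  obtain ⟨G, hG, ⟨ρ, h4⟩, hG2⟩ := h2
  refine ⟨F / G, hF.div hG, ⟨max σ (max τ ρ), fun s hs => ?_⟩,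
    fun n => order_div hF hG (hF2 n) (hG2 n)⟩
  rw [max_lt_iff, max_lt_iff] at hs
  rw [Pi.div_apply, h3 s hs.2.1, h4 s hs.2.2, h.add s hs.1.le, Complex.exp_add,
    mul_div_cancel_right₀ _ (Complex.exp_ne_zero _)]

lemma split_right (h : Split N N' M σ) (h1 : Ord M e) (h2 : Ord N e') :
    Ord N' fun n => e n - e' n := by
  rw [ord_iff h.all] at h1
  rw [ord_iff h.left] at h2
  rw [ord_iff h.right]
  obtain ⟨F, hF, ⟨τ, h3⟩, hF2⟩ := h1
  obtain ⟨G, hG, ⟨ρ, h4⟩, hG2⟩ := h2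
  refine ⟨F / G, hF.div hG, ⟨max σ (max τ ρ), fun s hs => ?_⟩,
    fun n => order_div hF hG (hF2 n) (hG2 n)⟩
  rw [max_lt_iff, max_lt_iff] at hs
  rw [Pi.div_apply, h3 s hs.2.1, h4 s hs.2.2, h.add s hs.1.le, Complex.exp_add,
    mul_div_cancel_left₀ _ (Complex.exp_ne_zero _)]

/-- The shift of the variable. -/
lemma ord_shift (h : Good N σ) (h' : Good N' σ) (m : ℕ)
    (hc : ∀ k, co N' k = (k : ℂ) ^ m * co N k) (h1 : Ord N e) : Ord N' fun n => e (n - m) := by
  rw [ord_iff h] at h1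
  rw [ord_iff h']
  obtain ⟨F, hF, ⟨τ, h3⟩, hF2⟩ := h1
  refine ⟨fun s => F (s - m), fun s _ => MeromorphicAt.comp_analyticAt (f := F)
    (g := fun s => s - m) (hF (s - m) trivial) (by fun_prop),
    ⟨max (σ + m) (τ + m), fun s hs => ?_⟩, fun n => ?_⟩
  · rw [max_lt_iff] at hs
    rw [lg_shift h h' m hc hs.1.le]
    apply h3
    rw [sub_re, Complex.natCast_re]
    linarith [hs.2]
  · rw [meromorphicOrderAt_fun_comp_sub_const_eq_meromorphicOrderAt, ← hF2 (n - m)]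
    push_cast
    rfl

/-- The shift of the variable. -/
lemma ord_unshift (h : Good N σ) (h' : Good N' σ) (m : ℕ)
    (hc : ∀ k, co N' k = (k : ℂ) ^ m * co N k) (h1 : Ord N' e) : Ord N fun n => e (n + m) := by
  rw [ord_iff h'] at h1
  rw [ord_iff h]
  obtain ⟨F, hF, ⟨τ, h3⟩, hF2⟩ := h1
  refine ⟨fun s => F (s + m), fun s _ => MeromorphicAt.comp_analyticAt (f := F)
    (g := fun s => s + m) (hF (s + m) trivial) (by fun_prop),
    ⟨max σ τ, fun s hs => ?_⟩, fun n => ?_⟩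
  · rw [max_lt_iff] at hs
    have h4 := lg_shift h h' m hc (s := s + m) (by
      rw [add_re, Complex.natCast_re]
      linarith [hs.1])
    rw [add_sub_cancel_right] at h4
    rw [← h4]
    apply h3
    rw [add_re, Complex.natCast_re]
    have : (0 : ℝ) ≤ m := Nat.cast_nonneg m
    linarith [hs.2]
  · rw [meromorphicOrderAt_fun_comp_add_const_eq_meromorphicOrderAt, ← hF2 (n + m)]
    push_cast
    rfl

/-- The product with the multiplicative group. -/
theorem ord_torus (h : Good N σ) (h' : Good N' σ)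
    (hc : ∀ k, co N' k = ((k : ℂ) - 1) * co N k) (h1 : Ord N' fun n => e (n - 1) - e n)
    {n₀ : ℤ} (he : ∀ n, n₀ ≤ n → e n = 0) : Ord N e := by
  have h1' := h1
  rw [ord_iff h'] at h1'
  obtain ⟨G, hG, ⟨ρ, h3⟩, hG2⟩ := h1'
  have hm : Mer Set.univ N' := by
    obtain ⟨F, hF, ⟨τ, h2⟩, -⟩ := h1
    exact ⟨F, ⟨hF, fun s hs => absurd trivial hs⟩, τ, h2⟩
  have hS : Tr Set.univ := fun s => ⟨fun _ => trivial, fun _ => trivial⟩
  have hm2 := mer_torus hS h h' hc hm
  rw [mer_iff h] at hm2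
  obtain ⟨F, ⟨hF, -⟩, τ, h4⟩ := hm2
  have hF1 : MeromorphicOn (fun s => F (s - 1)) Set.univ := fun s _ =>
    MeromorphicAt.comp_analyticAt (f := F) (g := fun s => s - 1) (hF (s - 1) trivial) (by fun_prop)
  -- the functional equation
  have hfun : ∀ s : ℂ, max (σ + 1) (max ρ (τ + 1)) < s.re → (G * F) s = F (s - 1) := by
    intro s hs
    rw [max_lt_iff, max_lt_iff] at hs
    rw [Pi.mul_apply, h3 s hs.2.1, h4 s (by linarith [hs.2.2]), h4 (s - 1) (by
      rw [sub_re, one_re]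
      linarith [hs.2.2]), lg_torus h h' hc hs.1.le, ← Complex.exp_add, sub_add_cancel]
  have hstep : ∀ s : ℂ, meromorphicOrderAt F (s - 1) =
      meromorphicOrderAt G s + meromorphicOrderAt F s := by
    intro s
    rw [← meromorphicOrderAt_mul (hG s trivial) (hF s trivial),
      order_eq (hG.mul hF) hF1 hfun s, meromorphicOrderAt_fun_comp_sub_const_eq_meromorphicOrderAt]
  rw [ord_iff h]
  refine ⟨F, hF, ⟨τ, h4⟩, ?_⟩
  -- large integers
  obtain ⟨m, hm⟩ : ∃ m : ℤ, n₀ ≤ m ∧ σ < m ∧ τ < m := by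
    obtain ⟨m, hm⟩ := exists_int_gt (max (n₀ : ℝ) (max σ τ))
    rw [max_lt_iff, max_lt_iff] at hm
    exact ⟨m, by exact_mod_cast hm.1.le, hm.2.1, hm.2.2⟩
  have hlarge : ∀ n : ℤ, m ≤ n → meromorphicOrderAt F n = ((e n : ℤ) : WithTop ℤ) := by
    intro n hn
    have hn' : (m : ℝ) ≤ n := by exact_mod_cast hn
    rw [he n (hm.1.trans hn)]
    have h5 : meromorphicOrderAt F n = meromorphicOrderAt (fun z => exp (lg N z)) n := by
      apply meromorphicOrderAt_congr
      apply Filter.EventuallyEq.filter_mono _ nhdsWithin_le_nhds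
      have h3 : {z : ℂ | τ < z.re} ∈ nhds (n : ℂ) :=
        (isOpen_lt continuous_const continuous_re).mem_nhds (by
          change τ < (n : ℂ).re
          rw [intCast_re]
          linarith [hm.2.2])
      filter_upwards [h3] with z hz
      exact h4 z hz
    rw [h5, (analytic_lg h (s := (n : ℂ)) (by
      rw [intCast_re]
      linarith [hm.2.1])).2]
    rfl
  -- descending induction
  have hall : ∀ k : ℕ, meromorphicOrderAt F ((m - k : ℤ) : ℂ) = ((e (m - k) : ℤ) : WithTop ℤ) := by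
    intro k
    induction k with
    | zero =>
      rw [Nat.cast_zero, sub_zero]
      exact hlarge m le_rfl
    | succ k ih =>
      have h5 := hstep ((m - k : ℤ) : ℂ)
      have h6 : (((m - k : ℤ) : ℂ)) - 1 = ((m - ((k + 1 : ℕ) : ℤ) : ℤ) : ℂ) := by
        push_cast
        ring
      have h7 : m - k - 1 = m - ((k + 1 : ℕ) : ℤ) := by
        push_cast
        ring
      rw [h6, ih, hG2 (m - k), h7] at h5
      rw [h5]
      norm_cast
      omega
  intro n
  rcases le_total m n with hn | hn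
  · exact hlarge n hn
  · obtain ⟨k, hk⟩ := Int.eq_ofNat_of_zero_le (sub_nonneg.2 hn)
    have h5 := hall k
    have h6 : m - (k : ℤ) = n := by
      rw [← hk]
      ring
    rw [h6] at h5
    exact h5

end

end Pool.Agent.Q27.SO
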