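import Pool.Agent.Q27.SO.Eul
import Pool.Agent.Q27.SO.Ord
import Pool.Agent.Q54.ZE.Zet2
import Pool.Agent.Q54.CU.KU

/-!
# The orders of zeta functions at the integers and the ranks of higher Chow groups: the property has
the closure properties `Bnd`
-/

set_option autoImplicit false

namespace Pool.Agent.Q27.SO

open CategoryTheory AlgebraicGeometry Pool.Agent.Y116.UV Pool.Agent.Z125.UN Q54.CU Q54.ZE

/-- The standard properties of the higher Chow groups `C n i X = CH_n(X, i) ⊗ ℚ` (cycles of dimension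
`n + i` on `X × Δ^i`; zero for `i < 0`) of the separated schemes `X` of finite type over `ℤ`:

* `iso`: invariance under isomorphisms;
* `localization`: the long exact localization sequences;
* `bundle`: homotopy invariance for the affine bundles `Spec A[w_1, …, w_m] / (∑ f_l w_l - 1) → U`
  of Jouanolou, with fibres of dimension `m - 1`, where `U` is the complement of `f = 0` in `Spec A`;
* `torus`: `CH_n(X × 𝔾_m, i) = CH_{n-1}(X, i) ⊕ CH_n(X, i - 1)`;
* `bounded`: `CH_n(X, i) = 0` for all large `n`. -/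
structure IsChow (C : ℤ → ℤ → Sch ℤ → ModuleCat.{0} ℚ) : Prop where
  iso : ∀ {X Y : Sch ℤ}, FT True X → Nonempty (X ≅ Y) → ∀ n,
    IsoQ (fun i => C n i X) fun i => C n i Y
  localization : ∀ {Z X U : Sch ℤ} (f : Z ⟶ X) (g : U ⟶ X), FT True X → IsTriple f g →
    ∀ n, LongQ (fun i => C n i Z) (fun i => C n i X) fun i => C n i U
  bundle : ∀ (A : Type) [CommRing A] [Algebra ℤ A] [Algebra.FiniteType ℤ A] (m : ℕ)
    (f : Fin m → A) (U : Sch ℤ), IsNonzeroLocus f U →
    ∀ n, IsoQ (fun i => C n i U) fun i => C (n + (m - 1 : ℕ)) i (jouS ℤ f)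
  torus : ∀ (A : Type) [CommRing A] [Algebra ℤ A] [Algebra.FiniteType ℤ A],
    ∀ n, SumQ (fun i => C n i (torS ℤ A)) (fun i => C (n - 1) i (aff ℤ A)) fun i => C n i (aff ℤ A)
  bounded : ∀ X : Sch ℤ, FT True X → ∃ n₀ : ℤ, ∀ n, n₀ ≤ n → ∀ i, Subsingleton (C n i X)

variable (C : ℤ → ℤ → Sch ℤ → ModuleCat.{0} ℚ)

/-- For all integers `n` the spaces `C n i X` have finite dimension, almost all of them vanish, and the
zeta function of `X` has a meromorphic continuation whose order at `n` is `∑ (-1)^(i+1) dim C n i X`. -/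
def Soule (X : Sch ℤ) : Prop :=
  (∀ n, FinQ fun i => C n i X) ∧ Ord (nrm X.left) fun n => -chi fun i => C n i X

variable {C}

lemma ft_false {X : Sch ℤ} (hX : FT True X) : FT False X :=
  ⟨hX.locallyOfFiniteType, hX.quasiCompact, fun h => h.elim⟩

lemma ord_iso {X Y : Sch ℤ} {e : ℤ → ℤ} (hX : FT False X) (i : X ≅ Y)
    (h : Ord (nrm X.left) e) : Ord (nrm Y.left) e :=
  ord_of_equiv (isoEquiv hX i).symm (fun x => by
    obtain ⟨y, rfl⟩ := (isoEquiv hX i).surjective x
    rw [Equiv.symm_apply_apply, isoEquiv_nrm]) h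

lemma ord_aff (A : Type) [CommRing A] [Algebra ℤ A] {e : ℤ → ℤ} :
    Ord (nrm (aff ℤ A).left) e ↔ Ord (idN (maxS A)) e :=
  ⟨ord_of_equiv (affEquiv A) (affEquiv_nrm A), ord_of_equiv (affEquiv A).symm (fun x => by
    obtain ⟨y, rfl⟩ := (affEquiv A).surjective x
    rw [Equiv.symm_apply_apply]
    exact (affEquiv_nrm A y).symm)⟩

lemma ord_opn {A : Type} [CommRing A] [Algebra ℤ A] [Algebra.FiniteType ℤ A] {m : ℕ}
    (f : Fin m → A) {U : Sch ℤ} (j : U ⟶ aff ℤ A) (hj : Pres j.left)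
    (h : Set.range j.left = {x : PrimeSpectrum A | ∃ l, f l ∉ x.asIdeal}) {e : ℤ → ℤ} :
    Ord (nrm U.left) e ↔ Ord (idN (neS f)) e :=
  ⟨ord_of_equiv (opnEquiv f j hj h) (opnEquiv_nrm f j hj h),
    ord_of_equiv (opnEquiv f j hj h).symm (fun x => by
      obtain ⟨y, rfl⟩ := (opnEquiv f j hj h).surjective x
      rw [Equiv.symm_apply_apply]
      exact (opnEquiv_nrm f j hj h y).symm)⟩

lemma soule_iso (hC : IsChow C) {X Y : Sch ℤ} (hX : FT True X) (e : Nonempty (X ≅ Y))
    (h : Soule C X) : Soule C Y := by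
  refine ⟨fun n => (hC.iso hX e n).fin (h.1 n), ?_⟩
  obtain ⟨e'⟩ := e
  refine ord_congr (ord_iso (ft_false hX) e' h.2) fun n => ?_
  rw [(hC.iso hX ⟨e'⟩ n).chi]

lemma soule_bundle (hC : IsChow C) {A : Type} [CommRing A] [Algebra ℤ A]
    [Algebra.FiniteType ℤ A] {m : ℕ} (f : Fin m → A) {U : Sch ℤ} (j : U ⟶ aff ℤ A)
    (hj : IsOpenImmersion j.left)
    (hr : Set.range j.left = {x : PrimeSpectrum A | ∃ l, f l ∉ x.asIdeal}) :
    Soule C U ↔ Soule C (aff ℤ (Jou f)) := by
  have := ft_jou f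
  have : JacobsonSpace (aff ℤ A).left := jacobson_ft (ft_aff False)
  have hb := hC.bundle A m f U ⟨j, hj, hr⟩
  obtain ⟨σ, h1, h2⟩ := exists_good2 (neS_subset f) (subset_rfl (a := maxS (Jou f)))
  constructor
  · rintro ⟨h3, h4⟩
    refine ⟨fun n => ?_, ?_⟩
    · have h5 := (hb (n - (m - 1 : ℕ))).fin (h3 _)
      rw [sub_add_cancel] at h5
      exact h5
    · rw [ord_aff]
      rw [ord_opn f j (pres_open j.left) hr] at h4
      refine ord_congr (ord_shift h1 h2 (m - 1) (co_jou f) h4) fun n => ?_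
      have h5 := (hb (n - (m - 1 : ℕ))).chi
      rw [sub_add_cancel] at h5
      rw [h5]
      rfl
  · rintro ⟨h3, h4⟩
    refine ⟨fun n => (hb n).symm.fin (h3 _), ?_⟩
    rw [ord_aff] at h4
    rw [ord_opn f j (pres_open j.left) hr]
    refine ord_congr (ord_unshift h1 h2 (m - 1) (co_jou f) h4) fun n => ?_
    rw [(hb n).chi]
    rfl

lemma soule_torus (hC : IsChow C) (A : Type) [CommRing A] [Algebra ℤ A]
    [Algebra.FiniteType ℤ A] (h : Soule C (aff ℤ (LaurentPolynomial A))) : Soule C (aff ℤ A) := by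
  have := ft_laurent (R := ℤ) A
  have ht := hC.torus A
  have hf : ∀ n, FinQ fun i => C n i (aff ℤ A) := fun n => by
    have h1 := (ht (n + 1)).fin (h.1 (n + 1))
    rw [add_sub_cancel_right] at h1
    exact h1
  refine ⟨hf, ?_⟩
  rw [ord_aff]
  have h4 := h.2
  rw [ord_aff] at h4
  obtain ⟨σ, h1, h2⟩ := exists_good2 (subset_rfl (a := maxS A))
    (subset_rfl (a := maxS (LaurentPolynomial A)))
  obtain ⟨n₀, hn⟩ := hC.bounded (aff ℤ A) (ft_aff True)
  refine ord_torus h1 h2 co_laurent (ord_congr h4 fun n => ?_) (n₀ := n₀) fun n h5 => ?_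
  · have h5 : chi (fun i => C n i (aff ℤ (LaurentPolynomial A))) =
        chi (fun i => C (n - 1) i (aff ℤ A)) - chi (fun i => C n i (aff ℤ A)) :=
      (ht n).chi (hf (n - 1)) (hf n)
    rw [h5]
    ring
  · rw [chi_zero (hn n h5), neg_zero]

/-- The property `Soule` has the closure properties `Bnd`. -/
theorem bnd_soule (hC : IsChow C) (point : Soule C (aff ℤ ℤ)) : Bnd True (Soule C) where
  iso hX e h := soule_iso hC hX e h
  total i j hX ht hZ hU := by
    obtain ⟨σ, h⟩ := triple_split (ft_false hX) ht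
    refine ⟨fun n => ((hC.localization i j hX ht n).mid (hZ.1 n) (hU.1 n)).1, ?_⟩
    refine ord_congr (split_all h hZ.2 hU.2) fun n => ?_
    rw [((hC.localization i j hX ht n).mid (hZ.1 n) (hU.1 n)).2]
    ring
  opened i j hX ht hZ hX' := by
    obtain ⟨σ, h⟩ := triple_split (ft_false hX) ht
    refine ⟨fun n => ((hC.localization i j hX ht n).right (hZ.1 n) (hX'.1 n)).1, ?_⟩
    refine ord_congr (split_right h hX'.2 hZ.2) fun n => ?_
    rw [((hC.localization i j hX ht n).right (hZ.1 n) (hX'.1 n)).2]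
    ring
  closed i j hX ht hX' hU := by
    obtain ⟨σ, h⟩ := triple_split (ft_false hX) ht
    refine ⟨fun n => ((hC.localization i j hX ht n).left (hX'.1 n) (hU.1 n)).1, ?_⟩
    refine ord_congr (split_left h hX'.2 hU.2) fun n => ?_
    rw [((hC.localization i j hX ht n).left (hX'.1 n) (hU.1 n)).2]
    ring
  space n := by
    have h1 : Soule C (aff ℤ (Jou (f1 ℤ n))) :=
      (soule_bundle hC (f1 ℤ n) (𝟙 (aff ℤ ℤ)) inferInstance (range_id n)).1 point
    exact soule_iso hC (ft_aff True) ⟨(affIso (jouOne ℤ n)).symm⟩ h1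
  jouanolou A _ _ _ m f U j hj hr h := (soule_bundle hC f j hj hr).2 h
  torus A _ _ _ h := soule_torus hC A h
  bundle A _ _ _ m f U j hj hr h := (soule_bundle hC f j hj hr).1 h

end Pool.Agent.Q27.SO
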