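import Mathlib

/-!
# Euler characteristics of long exact sequences indexed by the integers
-/

set_option autoImplicit false

namespace Pool.Agent.Q27.SO

/-- The alternating sum of a function with finite support. -/
noncomputable def eul (f : ℤ → ℕ) : ℤ := ∑ᶠ i : ℤ, (i.negOnePow : ℤ) * (f i : ℤ)

/-- Only finitely many values are not zero. -/
def FinSupp (f : ℤ → ℕ) : Prop := {i | f i ≠ 0}.Finite

lemma FinSupp.of_le {f g : ℤ → ℕ} (hg : FinSupp g) (h : ∀ i, g i = 0 → f i = 0) : FinSupp f :=
  hg.subset fun i hi h0 => hi (h i h0)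

lemma FinSupp.union {f g k : ℤ → ℕ} (hg : FinSupp g) (hk : FinSupp k)
    (h : ∀ i, g i = 0 → k i = 0 → f i = 0) : FinSupp f :=
  (Set.Finite.union hg hk).subset fun i hi => by
    by_contra hcon
    simp only [Set.mem_union, Set.mem_ofPred_eq, not_or, not_not] at hcon
    exact hi (h i hcon.1 hcon.2)

lemma FinSupp.shift {f : ℤ → ℕ} (hf : FinSupp f) (k : ℤ) : FinSupp fun i => f (i + k) := by
  refine (hf.preimage (f := fun i => i + k) (fun a _ b _ h => ?_)).subset fun i hi => hi
  exact add_right_cancel h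

lemma FinSupp.prev {f : ℤ → ℕ} (hf : FinSupp f) : FinSupp fun i => f (i - 1) := hf.shift (-1)

lemma FinSupp.has {f : ℤ → ℕ} (hf : FinSupp f) :
    Function.HasFiniteSupport fun i : ℤ => (i.negOnePow : ℤ) * (f i : ℤ) := by
  refine hf.subset fun i hi h0 => hi ?_
  simp [h0]

lemma eul_add {f g : ℤ → ℕ} (hf : FinSupp f) (hg : FinSupp g) :
    eul (fun i => f i + g i) = eul f + eul g := by
  rw [eul, eul, eul, ← finsum_add_distrib hf.has hg.has]
  apply finsum_congr
  intro i
  push_cast
  ring

lemma eul_shift (f : ℤ → ℕ) : eul (fun i => f (i - 1)) = -eul f := by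
  rw [eul, eul, ← finsum_neg_distrib, ← finsum_comp_equiv (Equiv.addRight (1 : ℤ))]
  apply finsum_congr
  intro i
  rw [Equiv.coe_addRight, add_sub_cancel_right, Int.negOnePow_succ]
  push_cast
  ring

/-- The numerical form of a long exact sequence. -/
structure Num (a b c : ℤ → ℕ) : Prop where
  ex : ∃ α β γ : ℤ → ℕ, (∀ i, a i = γ i + α i) ∧ (∀ i, b i = α i + β i) ∧
    ∀ i, c (i + 1) = β (i + 1) + γ i

variable {a b c : ℤ → ℕ}

lemma Num.supp_b (h : Num a b c) (ha : FinSupp a) (hc : FinSupp c) : FinSupp b := by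
  obtain ⟨α, β, γ, h1, h2, h3⟩ := h.ex
  refine ha.union hc fun i ha hc => ?_
  have e1 := h1 i
  have e2 := h2 i
  have e3 := h3 (i - 1)
  rw [sub_add_cancel] at e3
  omega

lemma Num.supp_c (h : Num a b c) (ha : FinSupp a) (hb : FinSupp b) : FinSupp c := by
  obtain ⟨α, β, γ, h1, h2, h3⟩ := h.ex
  refine (ha.shift (-1)).union hb fun i ha hb => ?_
  have e1 := h1 (i + -1)
  have e2 := h2 i
  have e3 := h3 (i - 1)
  rw [sub_add_cancel] at e3
  rw [← sub_eq_add_neg] at ha e1
  omega

lemma Num.supp_a (h : Num a b c) (hb : FinSupp b) (hc : FinSupp c) : FinSupp a := by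
  obtain ⟨α, β, γ, h1, h2, h3⟩ := h.ex
  refine (hc.shift 1).union hb fun i hc hb => ?_
  have e1 := h1 i
  have e2 := h2 i
  have e3 := h3 i
  omega

/-- The Euler characteristic is additive. -/
lemma Num.eul (h : Num a b c) (ha : FinSupp a) (hb : FinSupp b) :
    eul b = eul a + eul c := by
  obtain ⟨α, β, γ, h1, h2, h3⟩ := h.ex
  have hα : FinSupp α := ha.of_le fun i hi => by
    have := h1 i
    omega
  have hβ : FinSupp β := hb.of_le fun i hi => by
    have := h2 i
    omega
  have hγ : FinSupp γ := ha.of_le fun i hi => by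
    have := h1 i
    omega
  have ea : a = fun i => γ i + α i := funext h1
  have eb : b = fun i => α i + β i := funext h2
  have ec : c = fun i => β i + γ (i - 1) := funext fun i => by
    have e3 := h3 (i - 1)
    rw [sub_add_cancel] at e3
    exact e3
  rw [ea, eb, ec, eul_add hγ hα, eul_add hα hβ, eul_add hβ hγ.prev, eul_shift]
  ring

section exact

variable (A B C : ℤ → ModuleCat.{0} ℚ)

/-- A long exact sequence `… → C (i+1) → A i → B i → C i → A (i-1) → …`. -/
def LongQ : Prop :=
  ∃ (f : ∀ i, A i →ₗ[ℚ] B i) (g : ∀ i, B i →ₗ[ℚ] C i) (d : ∀ i, C (i + 1) →ₗ[ℚ] A i),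
    ∀ i, Function.Exact (f i) (g i) ∧ Function.Exact (g (i + 1)) (d i) ∧ Function.Exact (d i) (f i)

/-- All spaces have finite dimension and almost all of them vanish. -/
structure FinQ : Prop where
  finite : ∀ i, Module.Finite ℚ (A i)
  supp : FinSupp fun i => Module.finrank ℚ (A i)

variable {A B C}

lemma finite_of_exact {M N P : Type} [AddCommGroup M] [Module ℚ M] [AddCommGroup N] [Module ℚ N]
    [AddCommGroup P] [Module ℚ P] {f : M →ₗ[ℚ] N} {g : N →ₗ[ℚ] P} (h : Function.Exact f g)
    [Module.Finite ℚ M] [Module.Finite ℚ P] : Module.Finite ℚ N := by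
  have h1 : LinearMap.ker g = LinearMap.range f := LinearMap.exact_iff.1 h
  have h2 : Module.Finite ℚ (LinearMap.ker g) := by
    rw [h1]
    infer_instance
  have h3 : Module.Finite ℚ (N ⧸ LinearMap.ker g) :=
    Module.Finite.equiv (LinearMap.quotKerEquivRange g).symm
  exact Module.Finite.of_submodule_quotient (LinearMap.ker g)

lemma rank_mid {M N P : Type} [AddCommGroup M] [Module ℚ M] [AddCommGroup N] [Module ℚ N]
    [AddCommGroup P] [Module ℚ P] {f : M →ₗ[ℚ] N} {g : N →ₗ[ℚ] P} (h : Function.Exact f g)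
    [Module.Finite ℚ N] : Module.finrank ℚ N =
      Module.finrank ℚ (LinearMap.range f) + Module.finrank ℚ (LinearMap.range g) := by
  have h1 : LinearMap.ker g = LinearMap.range f := LinearMap.exact_iff.1 h
  rw [← h1, add_comm]
  exact (LinearMap.finrank_range_add_finrank_ker g).symm

lemma LongQ.num (h : LongQ A B C) (ha : ∀ i, Module.Finite ℚ (A i))
    (hb : ∀ i, Module.Finite ℚ (B i)) (hc : ∀ i, Module.Finite ℚ (C i)) :
    Num (fun i => Module.finrank ℚ (A i)) (fun i => Module.finrank ℚ (B i))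
      fun i => Module.finrank ℚ (C i) := by
  obtain ⟨f, g, d, h⟩ := h
  refine ⟨fun i => Module.finrank ℚ (LinearMap.range (f i)),
    fun i => Module.finrank ℚ (LinearMap.range (g i)),
    fun i => Module.finrank ℚ (LinearMap.range (d i)), fun i => ?_, fun i => ?_, fun i => ?_⟩
  · exact rank_mid (h i).2.2
  · exact rank_mid (h i).1
  · exact rank_mid (h i).2.1

/-- The Euler characteristic of a family of vector spaces. -/
noncomputable def chi (A : ℤ → ModuleCat.{0} ℚ) : ℤ := eul fun i => Module.finrank ℚ (A i)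

lemma LongQ.mid (h : LongQ A B C) (ha : FinQ A) (hc : FinQ C) :
    FinQ B ∧ chi B = chi A + chi C := by
  have hb : ∀ i, Module.Finite ℚ (B i) := by
    obtain ⟨f, g, d, h⟩ := h
    intro i
    have := ha.finite i
    have := hc.finite i
    exact finite_of_exact (h i).1
  have hn := h.num ha.finite hb hc.finite
  have hs := hn.supp_b ha.supp hc.supp
  exact ⟨⟨hb, hs⟩, hn.eul ha.supp hs⟩

lemma LongQ.right (h : LongQ A B C) (ha : FinQ A) (hb : FinQ B) :
    FinQ C ∧ chi B = chi A + chi C := by
  have hc : ∀ i, Module.Finite ℚ (C i) := by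
    obtain ⟨f, g, d, h⟩ := h
    intro i
    obtain ⟨i, rfl⟩ : ∃ l : ℤ, i = l + 1 := ⟨i - 1, by ring⟩
    have := ha.finite i
    have := hb.finite (i + 1)
    exact finite_of_exact (h i).2.1
  have hn := h.num ha.finite hb.finite hc
  have hs := hn.supp_c ha.supp hb.supp
  exact ⟨⟨hc, hs⟩, hn.eul ha.supp hb.supp⟩

lemma LongQ.left (h : LongQ A B C) (hb : FinQ B) (hc : FinQ C) :
    FinQ A ∧ chi B = chi A + chi C := by
  have ha : ∀ i, Module.Finite ℚ (A i) := by
    obtain ⟨f, g, d, h⟩ := h
    intro i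
    have := hc.finite (i + 1)
    have := hb.finite i
    exact finite_of_exact (h i).2.2
  have hn := h.num ha hb.finite hc.finite
  have hs := hn.supp_a hb.supp hc.supp
  exact ⟨⟨ha, hs⟩, hn.eul hs hb.supp⟩

/-- Isomorphic families. -/
def IsoQ (A B : ℤ → ModuleCat.{0} ℚ) : Prop := ∀ i, Nonempty (A i ≃ₗ[ℚ] B i)

lemma IsoQ.symm (h : IsoQ A B) : IsoQ B A := fun i => ⟨(h i).some.symm⟩

lemma IsoQ.rank (h : IsoQ A B) (i : ℤ) : Module.finrank ℚ (A i) = Module.finrank ℚ (B i) :=
  (h i).some.finrank_eq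

lemma IsoQ.fin (h : IsoQ A B) (hA : FinQ A) : FinQ B :=
  ⟨fun i => by
    have := hA.finite i
    exact Module.Finite.equiv (h i).some, hA.supp.of_le fun i hi => by
    rw [← h.rank i]
    exact hi⟩

lemma IsoQ.chi (h : IsoQ A B) : chi A = chi B := by
  rw [SO.chi, SO.chi]
  congr 1
  funext i
  exact h.rank i

/-- `B` is isomorphic to the sum of `A` and the shift of `C`. -/
def SumQ (B A C : ℤ → ModuleCat.{0} ℚ) : Prop :=
  ∀ i, Nonempty (B i ≃ₗ[ℚ] A i × C (i - 1))

lemma SumQ.fin (h : SumQ B A C) (hB : FinQ B) : FinQ A := by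
  have h1 : ∀ i, Module.Finite ℚ (A i) := fun i => by
    have := hB.finite i
    exact Module.Finite.of_surjective
      ((LinearMap.fst ℚ (A i) (C (i - 1))).comp (h i).some.toLinearMap)
      (by
        rw [LinearMap.coe_comp]
        exact Prod.fst_surjective.comp (h i).some.surjective)
  refine ⟨h1, hB.supp.of_le fun i hi => ?_⟩
  have := hB.finite i
  have := Module.Finite.equiv (h i).some
  have e := (h i).some.finrank_eq
  have h2 : Module.Finite ℚ (C (i - 1)) :=
    Module.Finite.of_surjective (LinearMap.snd ℚ (A i) (C (i - 1))) Prod.snd_surjective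
  rw [hi, Module.finrank_prod] at e
  omega

lemma SumQ.chi (h : SumQ B A C) (hA : FinQ A) (hC : FinQ C) : chi B = chi A - chi C := by
  have h1 : (fun i => Module.finrank ℚ (B i)) = fun i => Module.finrank ℚ (A i) +
      (fun j => Module.finrank ℚ (C j)) (i - 1) := by
    funext i
    have := hA.finite i
    have := hC.finite (i - 1)
    rw [(h i).some.finrank_eq, Module.finrank_prod]
  rw [SO.chi, h1, eul_add hA.supp hC.supp.prev, eul_shift (fun j => Module.finrank ℚ (C j))]
  rfl

lemma chi_zero (h : ∀ i, Subsingleton (A i)) : SO.chi A = 0 := by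
  have h1 : (fun i => Module.finrank ℚ (A i)) = fun _ => 0 := by
    funext i
    have := h i
    exact Module.finrank_zero_of_subsingleton
  rw [SO.chi, h1, eul]
  simp

lemma fin_zero (h : ∀ i, Subsingleton (A i)) : FinQ A :=
  ⟨fun i => by
    have := h i
    infer_instance, by
    have h1 : {i : ℤ | Module.finrank ℚ (A i) ≠ 0} = ∅ := by
      ext i
      have := h i
      simp [Module.finrank_zero_of_subsingleton]
    rw [FinSupp, h1]
    exact Set.finite_empty⟩

end exact

end Pool.Agent.Q27.SO
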